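import Pool.Agent.MAJ.Assembly5

set_option autoImplicit false

open Pool.Agent.MAJ

/-- If every language in NP reduces to the sparse set `S` by a majority of truth tables with
boundedly many queries then all sets of witnesses of NP relations with at most polynomially many
members can be listed in deterministic polynomial time. -/
theorem Pool.Agent.Results.MP_ce7d1b_lc.MajListing.result (S : Lang) (hS : Sparse S)
    (H : ∀ L, InNP L → ∃ d, MajReduces d L S) (q k : Polynomial ℕ)
    (V : List Bool × List Bool → Bool) (hV : PolyTime encPair encBool V) :
    ∃ F : List Bool → List (List Bool), PolyTime id encList F ∧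
      ∀ x, (∀ w ∈ F x, w ∈ Wit q V x) ∧
        ((Wit q V x).ncard ≤ k.eval x.length → ∀ w ∈ Wit q V x, w ∈ F x) :=
  final_list S hS H q k V hV
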