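import Pool.Agent.MAJ.Final

set_option autoImplicit false

open Pool.Agent.MAJ

/-- If every language in UP reduces to the sparse set `S` by a majority of truth tables with
boundedly many queries then P = UP. -/
theorem Pool.Agent.Results.MP_ce7d1b_lc.MajUP.result (S : Lang) (hS : Sparse S)
    (H : ∀ L, InUP L → ∃ d, MajReduces d L S) (L : Lang) : InUP L ↔ InP L :=
  final_upp S hS H L
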