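import Pool.Agent.MAJ.Assembly7

set_option autoImplicit false

open Pool.Agent.MAJ

/-- If every language in NP reduces to the quasi-polynomially sparse set `S` by a quasi-polynomial
time majority of truth tables with polylogarithmically many queries then all sets of witnesses of NP
relations with at most quasi-polynomially many members can be listed in deterministic
quasi-polynomial time. -/
theorem Pool.Agent.Results.MP_ce7d1b_lc.QuasiListing.result (S : Lang) (hS : QuasiSparse S)
    (H : ∀ L, InNP L → QMajReduces L S) (q : Polynomial ℕ) (k : ℕ)
    (V : List Bool × List Bool → Bool) (hV : PolyTime encPair encBool V) :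
    ∃ F : List Bool → List (List Bool), QTime encList F ∧
      ∀ x, (∀ w ∈ F x, w ∈ Wit q V x) ∧
        ((Wit q V x).ncard ≤ quasi k x.length → ∀ w ∈ Wit q V x, w ∈ F x) :=
  final_qlist S hS H q k V hV
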